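import Pool.Agent.Lib.MP_28b8de_an.K.KYLoc
import Pool.Agent.Lib.MP_28b8de_an.K.KYOm

/-!
MP_28b8de_an, Q1 for all real analytic control systems on an open subset of `ℝⁿ`, `n` arbitrary,
which have near every point `n - 2` independent commuting symmetries (for `n = 3`: one symmetry
without zeros), in particular for all planar control systems with any number of integral costs:
every admissible trajectory (in particular every time-optimal one) can be replaced by one on the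
same time interval, with the same end points, whose set of switching points is countable.
-/

namespace Pool.Agent.Results.MP_28b8de_an.CommutingSymmetries

open Filter Topology Set MeasureTheory Pool.Agent.Lib.MP_28b8de_an
open Pool.Agent.Lib.MP_28b8de_an.TT Pool.Agent.Lib.MP_28b8de_an.DD

/-- admissible trajectories in `Ω`, on `[0,T]`, of the control system `q' = f(q) + u g(q)`,
`|u| ≤ 1` -/
def IsTraj {X : Type*} [NormedAddCommGroup X] [NormedSpace ℝ X] (Ω : Set X) (f g : X → X) (T : ℝ)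
    (q : ℝ → X) : Prop :=
  (∀ t ∈ Icc 0 T, q t ∈ Ω) ∧ (∃ K : NNReal, LipschitzOnWith K q (Icc 0 T)) ∧
    ∃ u : ℝ → ℝ, Measurable u ∧ (∀ t, |u t| ≤ 1) ∧
      ∀ᵐ t : ℝ, t ∈ Icc 0 T → HasDerivAt q (f (q t) + u t • g (q t)) t

/-- `q` is a time-optimal trajectory in `Ω` from `q₀` to `q₁`, defined on `[0,T]` -/
def TimeOptimal {X : Type*} [NormedAddCommGroup X] [NormedSpace ℝ X] (Ω : Set X) (f g : X → X)
    (q₀ q₁ : X) (T : ℝ) (q : ℝ → X) : Prop :=
  0 ≤ T ∧ IsTraj Ω f g T q ∧ q 0 = q₀ ∧ q T = q₁ ∧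
    ∀ (T' : ℝ) (q' : ℝ → X), 0 ≤ T' → T' < T → IsTraj Ω f g T' q' → q' 0 = q₀ → q' T' ≠ q₁

/-- the switching points of a trajectory defined on `[0,T]`: the times near which it is not
`C^∞` -/
def Switching {X : Type*} [NormedAddCommGroup X] [NormedSpace ℝ X] (T : ℝ) (q : ℝ → X) :
    Set ℝ :=
  {t ∈ Icc 0 T | ∀ ε > 0, ¬ ContDiffOn ℝ (⊤ : ℕ∞) q (Icc 0 T ∩ Ioo (t - ε) (t + ε))}

theorem ae_Icc_of_Ioo {T : ℝ} {P : ℝ → Prop} (h : ∀ᵐ t : ℝ, t ∈ Ioo 0 T → P t) :
    ∀ᵐ t : ℝ, t ∈ Icc 0 T → P t := by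
  have h0 : ∀ᵐ t : ℝ, t ≠ 0 := by
    rw [ae_iff]
    simp
  have h1 : ∀ᵐ t : ℝ, t ≠ T := by
    rw [ae_iff]
    simp
  filter_upwards [h, h0, h1] with t ht ht0 htT htm
  exact ht ⟨lt_of_le_of_ne htm.1 (Ne.symm ht0), lt_of_le_of_ne htm.2 htT⟩

variable {V : Type*} [NormedAddCommGroup V] [NormedSpace ℝ V] [FiniteDimensional ℝ V]

/-- the pair `f, g` has `n - 2` commuting symmetries at `x₀`: near `x₀` there are analytic vector
fields `Z₁, …, Zₘ`, `m ≥ dim V - 2`, linearly independent at `x₀`, which commute with `f`, with `g`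
and with each other -/
def Symmetric (f g : V → V) (x₀ : V) : Prop :=
  ∃ (m : ℕ) (Z : Fin m → V → V), Module.finrank ℝ V ≤ m + 2 ∧ (∀ i, AnalyticAt ℝ (Z i) x₀) ∧
    LinearIndependent ℝ (fun i => Z i x₀) ∧
    ∀ᶠ x in 𝓝 x₀, ∀ i, VectorField.lieBracket ℝ (Z i) f x = 0 ∧
      VectorField.lieBracket ℝ (Z i) g x = 0 ∧ ∀ j, VectorField.lieBracket ℝ (Z i) (Z j) x = 0

/-- the replacement theorem -/
theorem replace {Ω : Set V} (hΩ : IsOpen Ω) {f g : V → V} (hf : AnalyticOnNhd ℝ f Ω)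
    (hg : AnalyticOnNhd ℝ g Ω) (hS : ∀ x ∈ Ω, Symmetric f g x) {T : ℝ} {q : ℝ → V} (hT : 0 ≤ T)
    (hq : IsTraj Ω f g T q) :
    ∃ q' : ℝ → V, IsTraj Ω f g T q' ∧ q' 0 = q 0 ∧ q' T = q T ∧ (Switching T q').Countable := by
  rcases hT.eq_or_lt with hT0 | hT0
  · refine ⟨q, hq, rfl, rfl, ?_⟩
    apply (Set.countable_singleton (0 : ℝ)).mono
    rintro t ⟨ht, -⟩
    rw [← hT0] at ht
    exact mem_singleton_iff.2 (le_antisymm ht.2 ht.1)
  obtain ⟨hqΩ, ⟨L, hL⟩, u, hum, hub, hqd⟩ := hq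
  have hu : PT.Adm u := ⟨hum, hub⟩
  have hsol : Sol (fun z : ℝ × V => f z.2) (fun z : ℝ × V => g z.2) u q 0 T := by
    apply sol_of_ae hL
    filter_upwards [hqd] with t ht htm
    exact ht (Ioo_subset_Icc_self htm)
  have hfe : ∀ t ∈ Icc 0 T, AnalyticAt ℝ f (q t) := fun t ht => hf _ (hqΩ t ht)
  have hge : ∀ t ∈ Icc 0 T, AnalyticAt ℝ g (q t) := fun t ht => hg _ (hqΩ t ht)
  -- integrability along the trajectory
  have hint : ∀ a ∈ Icc 0 T, ∀ b ∈ Icc 0 T,
      IntervalIntegrable (fun τ => f (q τ) + u τ • g (q τ)) volume a b := by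
    intro a ha b hb
    have hsub : uIcc a b ⊆ Icc 0 T := uIcc_subset_Icc ha hb
    have hqc : ContinuousOn q (uIcc a b) := hL.continuousOn.mono hsub
    have h1 : ContinuousOn (fun τ => f (q τ)) (uIcc a b) := fun t ht =>
      ContinuousWithinAt.comp_of_eq (hfe t (hsub ht)).continuousAt.continuousWithinAt
        (hqc t ht) (mapsTo_univ _ _) rfl
    have h2 : ContinuousOn (fun τ => g (q τ)) (uIcc a b) := fun t ht =>
      ContinuousWithinAt.comp_of_eq (hge t (hsub ht)).continuousAt.continuousWithinAt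
        (hqc t ht) (mapsTo_univ _ _) rfl
    refine h1.intervalIntegrable.add ?_
    have h3 := h2.intervalIntegrable (μ := volume)
    exact ⟨Integrable.bdd_smul h3.1 1 hum.aestronglyMeasurable
        (Eventually.of_forall fun t => by rw [Real.norm_eq_abs]; exact hub t),
      Integrable.bdd_smul h3.2 1 hum.aestronglyMeasurable
        (Eventually.of_forall fun t => by rw [Real.norm_eq_abs]; exact hub t)⟩
  have hlt : ∀ t ∈ Ioo 0 T,
      LTraj (fun z : ℝ × V => f z.2) (fun z : ℝ × V => g z.2) u q t := by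
    intro t ht
    refine ⟨min t (T - t), lt_min ht.1 (by linarith [ht.2]), ?_, ?_⟩
    · refine hL.continuousOn.mono fun s hs => ?_
      have h1 := min_le_left t (T - t)
      have h2 := min_le_right t (T - t)
      exact ⟨by linarith [hs.1], by linarith [hs.2]⟩
    · intro a ha b hb
      have h1 := min_le_left t (T - t)
      have h2 := min_le_right t (T - t)
      have ha' : a ∈ Icc 0 T := ⟨by linarith [ha.1], by linarith [ha.2]⟩
      have hb' : b ∈ Icc 0 T := ⟨by linarith [hb.1], by linarith [hb.2]⟩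
      have h0' : (0 : ℝ) ∈ Icc 0 T := ⟨le_refl _, hT⟩
      have e1 := hsol.eq a ha'
      have e2 := hsol.eq b hb'
      have e3 := intervalIntegral.integral_interval_sub_left (hint 0 h0' b hb') (hint 0 h0' a ha')
      rw [e1, e2, add_sub_add_left_eq_sub]
      exact e3
  have hrep : ∀ t ∈ Ioo 0 T,
      LRep (fun z : ℝ × V => f z.2) (fun z : ℝ × V => g z.2) q t := fun t ht =>
    KK.sy_lrep hu ht.1 (hfe t (Ioo_subset_Icc_self ht)) (hge t (Ioo_subset_Icc_self ht))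
      (hS _ (hqΩ t (Ioo_subset_Icc_self ht))) (hlt t ht)
  obtain ⟨v, r, hv, hr, h0, h1, hrΩ, hae, hcount⟩ :=
    KK.omega_main hΩ hf hg hT0 hu hL.continuousOn hqΩ (fun t ht => hsol.eq t ht) hrep
  refine ⟨r, ⟨hrΩ, hr, v, hv.1, hv.2, ae_Icc_of_Ioo hae⟩, h0, h1, ?_⟩
  have hc2 : ({t ∈ Ioo 0 T | ¬ SmAt r t} ∪ {0, T}).Countable :=
    hcount.union (Set.toFinite _).countable
  apply hc2.mono
  rintro t ⟨htT, ht⟩
  by_contra hnot
  rw [mem_union, not_or] at hnot
  obtain ⟨g1, g2⟩ := hnot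
  have e0 : t ≠ 0 := fun h => g2 (by rw [h]; exact Or.inl rfl)
  have e1 : t ≠ T := fun h => g2 (by rw [h]; exact Or.inr rfl)
  have htI : t ∈ Ioo 0 T := ⟨lt_of_le_of_ne htT.1 (Ne.symm e0), lt_of_le_of_ne htT.2 e1⟩
  have hsm : SmAt r t := by
    by_contra h
    exact g1 ⟨htI, h⟩
  obtain ⟨ε, hε, hε'⟩ := hsm
  exact ht ε hε (hε'.mono inter_subset_right)

/-- **Q1 for all control systems with `n - 2` independent commuting symmetries.** -/
theorem result {V : Type*} [NormedAddCommGroup V] [NormedSpace ℝ V] [FiniteDimensional ℝ V]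
    (Ω : Set V) (hΩ : IsOpen Ω) (f g : V → V) (hf : AnalyticOnNhd ℝ f Ω)
    (hg : AnalyticOnNhd ℝ g Ω) (hS : ∀ x ∈ Ω, Symmetric f g x) :
    (∀ (T : ℝ) (q : ℝ → V), 0 ≤ T → IsTraj Ω f g T q →
      ∃ q' : ℝ → V, IsTraj Ω f g T q' ∧ q' 0 = q 0 ∧ q' T = q T ∧ (Switching T q').Countable) ∧
    ∀ q₀ q₁ : V, (∃ T q, TimeOptimal Ω f g q₀ q₁ T q) →
      ∃ T q, TimeOptimal Ω f g q₀ q₁ T q ∧ (Switching T q).Countable := by
  constructor
  · intro T q hT hq
    exact replace hΩ hf hg hS hT hq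
  · rintro q₀ q₁ ⟨T, q, hT, hq, h0, h1, hopt⟩
    obtain ⟨q', hq', h0', h1', hcount⟩ := replace hΩ hf hg hS hT hq
    exact ⟨T, q', ⟨hT, hq', by rw [h0', h0], by rw [h1', h1], hopt⟩, hcount⟩

end Pool.Agent.Results.MP_28b8de_an.CommutingSymmetries
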