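import Pool.Agent.Lib.MP_28b8de_an.D.DMain
import Pool.Agent.Lib.MP_28b8de_an.D.DCut

/-!
MP_28b8de_an, Q1 for all real analytic control systems whose controlled part has dimension at most
three and whose fields `g`, `[f,g]`, `[g,[f,g]]` are linearly dependent at every point: every
admissible trajectory (in particular every time-optimal one) can be replaced by one on the same
time interval, with the same end points, whose set of switching points is countable.
-/

namespace Pool.Agent.Results.MP_28b8de_an.DependentBrackets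

open Filter Topology Set MeasureTheory Pool.Agent.Lib.MP_28b8de_an
open Pool.Agent.Lib.MP_28b8de_an.TT Pool.Agent.Lib.MP_28b8de_an.DD

/-- admissible trajectories on `[0,T]` of the control system `q' = f(q) + u g(q)`, `|u| ≤ 1` -/
def IsTraj {X : Type*} [NormedAddCommGroup X] [NormedSpace ℝ X] (f g : X → X) (T : ℝ)
    (q : ℝ → X) : Prop :=
  (∃ K : NNReal, LipschitzOnWith K q (Icc 0 T)) ∧
    ∃ u : ℝ → ℝ, Measurable u ∧ (∀ t, |u t| ≤ 1) ∧
      ∀ᵐ t : ℝ, t ∈ Icc 0 T → HasDerivAt q (f (q t) + u t • g (q t)) t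

/-- `q` is a time-optimal trajectory from `q₀` to `q₁`, defined on `[0,T]` -/
def TimeOptimal {X : Type*} [NormedAddCommGroup X] [NormedSpace ℝ X] (f g : X → X) (q₀ q₁ : X)
    (T : ℝ) (q : ℝ → X) : Prop :=
  0 ≤ T ∧ IsTraj f g T q ∧ q 0 = q₀ ∧ q T = q₁ ∧
    ∀ (T' : ℝ) (q' : ℝ → X), 0 ≤ T' → T' < T → IsTraj f g T' q' → q' 0 = q₀ → q' T' ≠ q₁

/-- the switching points of a trajectory defined on `[0,T]`: the times near which it is not
`C^∞` -/
def Switching {X : Type*} [NormedAddCommGroup X] [NormedSpace ℝ X] (T : ℝ) (q : ℝ → X) :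
    Set ℝ :=
  {t ∈ Icc 0 T | ∀ ε > 0, ¬ ContDiffOn ℝ (⊤ : ℕ∞) q (Icc 0 T ∩ Ioo (t - ε) (t + ε))}

/-- the drift `(s,x) ↦ (σ(s), F(s,x))` -/
def drift {E V : Type*} (σ : E → E) (F : E × V → V) (z : E × V) : E × V := (σ z.1, F z)

/-- the controlled field `(s,x) ↦ (0, G(s,x))` -/
def cfield {E V : Type*} [Zero E] (G : E × V → V) (z : E × V) : E × V := (0, G z)

/-- the fields `g`, `[f,g]`, `[g,[f,g]]` are linearly dependent at every point -/
def DependentFields {X : Type*} [NormedAddCommGroup X] [NormedSpace ℝ X] (f g : X → X) : Prop :=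
  ∀ z : X, ¬ LinearIndependent ℝ ![g z, VectorField.lieBracket ℝ f g z,
    VectorField.lieBracket ℝ g (VectorField.lieBracket ℝ f g) z]

theorem ae_Icc_of_Ioo {T : ℝ} {P : ℝ → Prop} (h : ∀ᵐ t : ℝ, t ∈ Ioo 0 T → P t) :
    ∀ᵐ t : ℝ, t ∈ Icc 0 T → P t := by
  have h0 : ∀ᵐ t : ℝ, t ≠ 0 := by
    rw [ae_iff]
    simp
  have h1 : ∀ᵐ t : ℝ, t ≠ T := by
    rw [ae_iff]
    simp
  filter_upwards [h, h0, h1] with t ht ht0 htT htm
  exact ht ⟨lt_of_le_of_ne htm.1 (Ne.symm ht0), lt_of_le_of_ne htm.2 htT⟩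

section three

variable {E V : Type*} [NormedAddCommGroup E] [NormedSpace ℝ E] [FiniteDimensional ℝ E]
  [NormedAddCommGroup V] [NormedSpace ℝ V] [FiniteDimensional ℝ V]

/-- the replacement theorem in dimension three -/
theorem replace3 (h3 : Module.finrank ℝ V = 3) {σ : E → E} {F G : E × V → V}
    (hσ : AnalyticOnNhd ℝ σ univ) (hF : AnalyticOnNhd ℝ F univ) (hG : AnalyticOnNhd ℝ G univ)
    (hd : DependentFields (drift σ F) (cfield G)) {T : ℝ} {q : ℝ → E × V} (hT : 0 ≤ T)
    (hq : IsTraj (drift σ F) (cfield G) T q) :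
    ∃ q' : ℝ → E × V, IsTraj (drift σ F) (cfield G) T q' ∧ q' 0 = q 0 ∧ q' T = q T ∧
      (Switching T q').Countable := by
  rcases hT.eq_or_lt with hT0 | hT0
  · refine ⟨q, hq, rfl, rfl, ?_⟩
    apply (Set.countable_singleton (0 : ℝ)).mono
    rintro t ⟨ht, -⟩
    rw [← hT0] at ht
    exact mem_singleton_iff.2 (le_antisymm ht.2 ht.1)
  obtain ⟨⟨K, hK⟩, u, hum, hub, hqd⟩ := hq
  have hqc : ContinuousOn q (Icc 0 T) := hK.continuousOn
  obtain ⟨b, hb⟩ := (isCompact_Icc (a := (0 : ℝ)) (b := T)).exists_bound_of_continuousOn hqc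
  set R : ℝ := max T b + 3 with hR
  have hRT : T + 3 ≤ R := by
    have := le_max_left T b
    linarith
  have hRB : b + 3 ≤ R := by
    have := le_max_right T b
    linarith
  have hR0 : 0 < R := by linarith
  have hf : AnalyticOnNhd ℝ (fun z : ℝ × (E × V) => drift σ F z.2) univ := by
    intro z _
    have h1 : AnalyticAt ℝ (drift σ F) z.2 :=
      (AnalyticAt.fun_comp (g := σ) (f := fun z : E × V => z.1) (hσ _ (mem_univ _))
        analyticAt_fst).prod (hF _ (mem_univ _))
    exact AnalyticAt.fun_comp (g := drift σ F) (f := fun z : ℝ × (E × V) => z.2) h1 analyticAt_snd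
  have hg : AnalyticOnNhd ℝ (fun z : ℝ × (E × V) => cfield G z.2) univ := by
    intro z _
    have h1 : AnalyticAt ℝ (cfield G) z.2 := analyticAt_const.prod (hG _ (mem_univ _))
    exact AnalyticAt.fun_comp (g := cfield G) (f := fun z : ℝ × (E × V) => z.2) h1 analyticAt_snd
  obtain ⟨F', G', M, hE, eF, eG⟩ := cut_env hf hg hR0
  have hbox : ∀ t ∈ Icc 0 T, ∀ x : E × V, ‖x - q t‖ ≤ 1 →
      ((t, x) : ℝ × (E × V)) ∈ Metric.ball (0 : ℝ × (E × V)) R := by
    intro t ht x hx
    have h1 : ‖x‖ < R := by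
      have h2 : ‖x‖ ≤ ‖x - q t‖ + ‖q t‖ := by
        have := norm_add_le (x - q t) (q t)
        rwa [sub_add_cancel] at this
      have := hb t ht
      linarith
    have h3 : ‖t‖ < R := by
      rw [Real.norm_eq_abs, abs_of_nonneg ht.1]
      linarith [ht.2]
    rw [mem_ball_zero_iff, Prod.norm_def]
    exact max_lt h3 h1
  have hagree : ∀ t ∈ Icc 0 T, ∀ x : E × V, ‖x - q t‖ ≤ 1 → ∀ v : ℝ,
      drift σ F x + v • cfield G x = F' (t, x) + v • G' (t, x) := by
    intro t ht x hx v
    rw [eF _ (hbox t ht x hx), eG _ (hbox t ht x hx)]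
  have hsol : Sol F' G' u q 0 T := by
    apply sol_of_ae hK
    filter_upwards [hqd] with t ht htm
    have htI : t ∈ Icc 0 T := Ioo_subset_Icc_self htm
    have h1 := ht htI
    rw [hagree t htI (q t) (by simp) (u t)] at h1
    exact h1
  have htr : Tr F' G' M T u q := ⟨hE, hT0, ⟨hum, hub⟩, hsol⟩
  have hball : ∀ t ∈ Ioo 0 T, Metric.ball (0 : ℝ × (E × V)) R ∈ 𝓝 ((t, q t) : ℝ × (E × V)) :=
    fun t ht => Metric.isOpen_ball.mem_nhds (hbox t (Ioo_subset_Icc_self ht) (q t) (by simp))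
  have hjn : Jn F' G' q 0 T := by
    refine dd_main h3 htr hσ hF hG ?_ ?_ hd
    · intro t ht
      filter_upwards [hball t ht] with z hz
      exact eF z hz
    · intro t ht
      filter_upwards [hball t ht] with z hz
      exact eG z hz
  obtain ⟨v, r, hv, hsol', h0, h1, htube, hcount⟩ := hjn
  have hM : 0 ≤ M := by linarith [hE.hM]
  refine ⟨r, ⟨⟨⟨2 * M, by linarith⟩, ?_⟩, v, hv.1, hv.2, ?_⟩, h0, h1, ?_⟩
  · apply LipschitzOnWith.of_dist_le_mul
    intro x hx y hy
    rw [dist_eq_norm, Real.dist_eq]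
    exact sol_lip hE hv hsol' hy hx
  · apply ae_Icc_of_Ioo
    filter_upwards [sol_ae hE hv hsol'] with t ht htm
    have htI : t ∈ Icc 0 T := Ioo_subset_Icc_self htm
    rw [hagree t htI (r t) (htube t htI) (v t)]
    exact ht htm
  · have hc2 : ({t ∈ Ioo 0 T | ¬ SmAt r t} ∪ {0, T}).Countable :=
      hcount.union (Set.toFinite _).countable
    apply hc2.mono
    rintro t ⟨htT, ht⟩
    by_contra hnot
    rw [mem_union, not_or] at hnot
    obtain ⟨g1, g2⟩ := hnot
    have e0 : t ≠ 0 := fun h => g2 (by rw [h]; exact Or.inl rfl)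
    have e1 : t ≠ T := fun h => g2 (by rw [h]; exact Or.inr rfl)
    have htI : t ∈ Ioo 0 T := ⟨lt_of_le_of_ne htT.1 (Ne.symm e0), lt_of_le_of_ne htT.2 e1⟩
    have hsm : SmAt r t := by
      by_contra h
      exact g1 ⟨htI, h⟩
    obtain ⟨ε, hε, hε'⟩ := hsm
    exact ht ε hε (hε'.mono inter_subset_right)

end three

section lift

variable {E V K : Type*} [NormedAddCommGroup E] [NormedSpace ℝ E] [FiniteDimensional ℝ E]
  [NormedAddCommGroup V] [NormedSpace ℝ V] [FiniteDimensional ℝ V]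
  [NormedAddCommGroup K] [NormedSpace ℝ K] [FiniteDimensional ℝ K]

/-- a field with additional components equal to zero -/
def up (K : Type*) [Zero K] (F : E × V → V) (z : E × (V × K)) : V × K := (F (z.1, z.2.1), 0)

/-- projection and inclusion -/
def dn (z : E × (V × K)) : E × V := (z.1, z.2.1)

theorem up_an {F : E × V → V} (hF : AnalyticOnNhd ℝ F univ) : AnalyticOnNhd ℝ (up K F) univ := by
  intro z _
  have h1 : AnalyticAt ℝ (fun z : E × (V × K) => (z.1, z.2.1)) z :=
    analyticAt_fst.prod (analyticAt_fst.fun_comp analyticAt_snd)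
  exact (AnalyticAt.fun_comp (g := F) (f := fun z : E × (V × K) => (z.1, z.2.1))
    (hF _ (mem_univ _)) h1).prod analyticAt_const

/-- the component in `E × K` -/
def pr : (E × (V × K)) →L[ℝ] E × K :=
  (ContinuousLinearMap.fst ℝ E (V × K)).prod
    ((ContinuousLinearMap.snd ℝ V K).comp (ContinuousLinearMap.snd ℝ E (V × K)))

theorem dep_low (hV : Module.finrank ℝ V < 3) {σ : E → E} {F G : E × V → V}
    (hσ : AnalyticOnNhd ℝ σ univ) (hF : AnalyticOnNhd ℝ F univ) (hG : AnalyticOnNhd ℝ G univ) :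
    DependentFields (drift σ (up K F)) (cfield (up K G)) := by
  intro z hli
  set f : E × (V × K) → E × (V × K) := drift σ (up K F) with hf
  set g : E × (V × K) → E × (V × K) := cfield (up K G) with hg
  have hfa : ∀ z, AnalyticAt ℝ f z := fun z =>
    (AnalyticAt.fun_comp (g := σ) (f := fun z : E × (V × K) => z.1) (hσ _ (mem_univ _))
      analyticAt_fst).prod (up_an hF z (mem_univ _))
  have hga : ∀ z, AnalyticAt ℝ g z := fun z => analyticAt_const.prod (up_an hG z (mem_univ _))
  have hla : ∀ z, AnalyticAt ℝ (VectorField.lieBracket ℝ f g) z := fun z =>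
    (clm_an (hga z).fderiv (hfa z)).sub (clm_an (hfa z).fderiv (hga z))
  -- components in `E × K`
  have p1 : ∀ z, pr (g z) = 0 := fun z => rfl
  have p2 : ∀ z y, pr (fderiv ℝ g z y) = 0 := by
    intro z y
    have h1 : HasFDerivAt (fun z => pr (g z)) ((pr (E := E) (V := V) (K := K)).comp (fderiv ℝ g z)) z :=
      (pr (E := E) (V := V) (K := K)).hasFDerivAt.comp z (hga z).differentiableAt.hasFDerivAt
    have h2 : (fun z => (pr (E := E) (V := V) (K := K)) (g z)) = fun _ => 0 := funext p1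
    rw [h2] at h1
    have h3 := h1.unique (hasFDerivAt_const (0 : E × K) z)
    exact congrArg (fun l => l y) h3
  have p3 : ∀ z (y : V × K), pr (fderiv ℝ f z (0, y)) = 0 := by
    intro z y
    have h1 : HasFDerivAt (fun z => pr (f z)) ((pr (E := E) (V := V) (K := K)).comp (fderiv ℝ f z)) z :=
      (pr (E := E) (V := V) (K := K)).hasFDerivAt.comp z (hfa z).differentiableAt.hasFDerivAt
    have h2 : (fun z : E × (V × K) => (pr (E := E) (V := V) (K := K)) (f z)) =
        fun z => ((σ z.1, 0) : E × K) := rfl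
    rw [h2] at h1
    have h4 : HasFDerivAt (fun z : E × (V × K) => σ z.1)
        ((fderiv ℝ σ z.1).comp (ContinuousLinearMap.fst ℝ E (V × K))) z :=
      HasFDerivAt.comp (g := σ) (f := fun z : E × (V × K) => z.1) z
        (hσ _ (mem_univ _)).differentiableAt.hasFDerivAt hasFDerivAt_fst
    have h5 : HasFDerivAt (fun z : E × (V × K) => ((σ z.1, 0) : E × K)) _ z :=
      h4.prodMk (hasFDerivAt_const (0 : K) z)
    have h3 := h1.unique h5
    have h6 := congrArg (fun l => l ((0 : E), y)) h3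
    rw [← Prod.mk_zero_zero]
    simpa using h6
  have p4 : ∀ z, pr (VectorField.lieBracket ℝ f g z) = 0 := by
    intro z
    show pr (fderiv ℝ g z (f z) - fderiv ℝ f z (g z)) = 0
    have h1 : g z = (0, up K G z) := rfl
    rw [map_sub, p2, h1, p3, sub_zero]
  have p5 : ∀ z y, pr (fderiv ℝ (VectorField.lieBracket ℝ f g) z y) = 0 := by
    intro z y
    have h1 : HasFDerivAt (fun z => pr (VectorField.lieBracket ℝ f g z))
        ((pr (E := E) (V := V) (K := K)).comp (fderiv ℝ (VectorField.lieBracket ℝ f g) z)) z :=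
      (pr (E := E) (V := V) (K := K)).hasFDerivAt.comp z (hla z).differentiableAt.hasFDerivAt
    have h2 : (fun z => (pr (E := E) (V := V) (K := K)) (VectorField.lieBracket ℝ f g z)) =
        fun _ => 0 := funext p4
    rw [h2] at h1
    have h3 := h1.unique (hasFDerivAt_const (0 : E × K) z)
    exact congrArg (fun l => l y) h3
  have p6 : ∀ z, pr (VectorField.lieBracket ℝ g (VectorField.lieBracket ℝ f g) z) = 0 := by
    intro z
    show pr (fderiv ℝ (VectorField.lieBracket ℝ f g) z (g z) -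
      fderiv ℝ g z (VectorField.lieBracket ℝ f g z)) = 0
    rw [map_sub, p5, p2, sub_zero]
  -- the three vectors come from `V`
  let j : V →ₗ[ℝ] E × (V × K) := (LinearMap.inr ℝ E (V × K)).comp (LinearMap.inl ℝ V K)
  have hj : ∀ y : E × (V × K), pr y = 0 → y = j y.2.1 := by
    intro y hy
    have h1 : y.1 = 0 := congrArg Prod.fst hy
    have h2 : y.2.2 = 0 := congrArg Prod.snd hy
    refine Prod.ext ?_ (Prod.ext ?_ ?_)
    · simp [j, h1]
    · simp [j]
    · simp [j, h2]
  set b : E × (V × K) := VectorField.lieBracket ℝ f g z with hb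
  set c : E × (V × K) := VectorField.lieBracket ℝ g (VectorField.lieBracket ℝ f g) z with hc
  have e : (![g z, b, c] : Fin 3 → E × (V × K)) = j ∘ ![(g z).2.1, b.2.1, c.2.1] := by
    funext i
    fin_cases i
    · exact hj _ (p1 z)
    · exact hj _ (p4 z)
    · exact hj _ (p6 z)
  rw [e] at hli
  have h7 : LinearIndependent ℝ ![(g z).2.1, b.2.1, c.2.1] := LinearIndependent.of_comp j hli
  have h8 := h7.fintype_card_le_finrank
  simp at h8
  omega

/-- the replacement theorem in dimension at most three -/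
theorem replace {σ : E → E} {F G : E × V → V} (hV : Module.finrank ℝ V ≤ 3)
    (hσ : AnalyticOnNhd ℝ σ univ) (hF : AnalyticOnNhd ℝ F univ) (hG : AnalyticOnNhd ℝ G univ)
    (hd : DependentFields (drift σ F) (cfield G)) {T : ℝ} {q : ℝ → E × V} (hT : 0 ≤ T)
    (hq : IsTraj (drift σ F) (cfield G) T q) :
    ∃ q' : ℝ → E × V, IsTraj (drift σ F) (cfield G) T q' ∧ q' 0 = q 0 ∧ q' T = q T ∧
      (Switching T q').Countable := by
  rcases hV.eq_or_lt with h3 | h3
  · exact replace3 h3 hσ hF hG hd hT hq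
  -- add trivial components
  let K : Type := Fin (3 - Module.finrank ℝ V) → ℝ
  have hK : Module.finrank ℝ (V × K) = 3 := by
    rw [Module.finrank_prod, Module.finrank_fin_fun]
    omega
  obtain ⟨⟨L, hL⟩, u, hum, hub, hqd⟩ := hq
  let ι : (E × V) →L[ℝ] E × (V × K) :=
    (ContinuousLinearMap.fst ℝ E V).prod
      ((ContinuousLinearMap.inl ℝ V K).comp (ContinuousLinearMap.snd ℝ E V))
  let π : (E × (V × K)) →L[ℝ] E × V :=
    (ContinuousLinearMap.fst ℝ E (V × K)).prod
      ((ContinuousLinearMap.fst ℝ V K).comp (ContinuousLinearMap.snd ℝ E (V × K)))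
  have hq' : IsTraj (drift σ (up K F)) (cfield (up K G)) T (fun t => ι (q t)) := by
    refine ⟨⟨‖ι‖₊ * L, ι.lipschitz.comp_lipschitzOnWith hL⟩, u, hum, hub, ?_⟩
    filter_upwards [hqd] with t ht htT
    have h1 := ι.hasFDerivAt.comp_hasDerivAt t (ht htT)
    have h2 : ι (drift σ F (q t) + u t • cfield G (q t)) =
        drift σ (up K F) (ι (q t)) + u t • cfield (up K G) (ι (q t)) := by
      refine Prod.ext ?_ (Prod.ext ?_ ?_)
      · simp [ι, drift, cfield]
      · simp [ι, drift, cfield, up]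
      · simp [ι, drift, cfield, up]
    rw [h2] at h1
    exact h1
  obtain ⟨r, ⟨⟨L', hL'⟩, v, hvm, hvb, hrd⟩, h0, h1, hc⟩ :=
    replace3 hK hσ (up_an (K := K) hF) (up_an (K := K) hG) (dep_low (K := K) h3 hσ hF hG) hT hq'
  have hπι : ∀ z, π (ι z) = z := fun z => rfl
  refine ⟨fun t => π (r t), ⟨⟨‖π‖₊ * L', π.lipschitz.comp_lipschitzOnWith hL'⟩, v, hvm, hvb, ?_⟩,
    ?_, ?_, ?_⟩
  · filter_upwards [hrd] with t ht htT
    have h2 := π.hasFDerivAt.comp_hasDerivAt t (ht htT)
    have h3 : π (drift σ (up K F) (r t) + v t • cfield (up K G) (r t)) =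
        drift σ F (π (r t)) + v t • cfield G (π (r t)) := by
      refine Prod.ext ?_ ?_
      · simp [π, drift, cfield]
      · simp [π, drift, cfield, up]
    rw [h3] at h2
    exact h2
  · show π (r 0) = q 0
    rw [h0, hπι]
  · show π (r T) = q T
    rw [h1, hπι]
  · apply hc.mono
    rintro t ⟨ht, hbad⟩
    refine ⟨ht, fun ε hε hsm => hbad ε hε ?_⟩
    exact π.contDiff.comp_contDiffOn hsm

end lift

/-- **Q1 for systems with dependent brackets in dimension three.** -/
theorem result {E V : Type*} [NormedAddCommGroup E] [NormedSpace ℝ E] [FiniteDimensional ℝ E]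
    [NormedAddCommGroup V] [NormedSpace ℝ V] [FiniteDimensional ℝ V]
    (hV : Module.finrank ℝ V ≤ 3) (σ : E → E) (F G : E × V → V)
    (hσ : AnalyticOnNhd ℝ σ univ) (hF : AnalyticOnNhd ℝ F univ) (hG : AnalyticOnNhd ℝ G univ)
    (hd : DependentFields (drift σ F) (cfield G)) :
    (∀ (T : ℝ) (q : ℝ → E × V), 0 ≤ T → IsTraj (drift σ F) (cfield G) T q →
      ∃ q' : ℝ → E × V, IsTraj (drift σ F) (cfield G) T q' ∧ q' 0 = q 0 ∧
        q' T = q T ∧ (Switching T q').Countable) ∧
    ∀ q₀ q₁ : E × V, (∃ T q, TimeOptimal (drift σ F) (cfield G) q₀ q₁ T q) →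
      ∃ T q, TimeOptimal (drift σ F) (cfield G) q₀ q₁ T q ∧ (Switching T q).Countable := by
  constructor
  · intro T q hT hq
    exact replace hV hσ hF hG hd hT hq
  · rintro q₀ q₁ ⟨T, q, hT, hq, h0, h1, hopt⟩
    obtain ⟨q', hq', h0', h1', hcount⟩ := replace hV hσ hF hG hd hT hq
    exact ⟨T, q', ⟨hT, hq', by rw [h0', h0], by rw [h1', h1], hopt⟩, hcount⟩

end Pool.Agent.Results.MP_28b8de_an.DependentBrackets
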