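import Pool.Agent.Lib.MP_28b8de_an.E.TransferE

/-!
MP_28b8de_an, Q1 for linear systems with a nonlinear scalar output (`x` moves linearly, `y` moves by
arbitrary real analytic functions of one linear output of `x`): every admissible trajectory (in
particular every time-optimal one) can be replaced by one on the same time interval, with the same
end points, whose set of switching points is countable.
-/

namespace Pool.Agent.Results.MP_28b8de_an.ScalarOutput

open Filter Topology Set MeasureTheory Pool.Agent.Lib.MP_28b8de_an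

/-- admissible trajectories on `[0,T]` of the control system `q' = f(q) + u g(q)`, `|u| ≤ 1` -/
def IsTraj {E : Type*} [NormedAddCommGroup E] [NormedSpace ℝ E] (f g : E → E) (T : ℝ)
    (q : ℝ → E) : Prop :=
  (∃ K : NNReal, LipschitzOnWith K q (Icc 0 T)) ∧
    ∃ u : ℝ → ℝ, Measurable u ∧ (∀ t, |u t| ≤ 1) ∧
      ∀ᵐ t : ℝ, t ∈ Icc 0 T → HasDerivAt q (f (q t) + u t • g (q t)) t

/-- `q` is a time-optimal trajectory from `q₀` to `q₁`, defined on `[0,T]` -/
def TimeOptimal {E : Type*} [NormedAddCommGroup E] [NormedSpace ℝ E] (f g : E → E) (q₀ q₁ : E)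
    (T : ℝ) (q : ℝ → E) : Prop :=
  0 ≤ T ∧ IsTraj f g T q ∧ q 0 = q₀ ∧ q T = q₁ ∧
    ∀ (T' : ℝ) (q' : ℝ → E), 0 ≤ T' → T' < T → IsTraj f g T' q' → q' 0 = q₀ → q' T' ≠ q₁

/-- the switching points of a trajectory defined on `[0,T]`: the times near which it is not
`C^∞` -/
def Switching {E : Type*} [NormedAddCommGroup E] [NormedSpace ℝ E] (T : ℝ) (q : ℝ → E) :
    Set ℝ :=
  {t ∈ Icc 0 T | ∀ ε > 0, ¬ ContDiffOn ℝ (⊤ : ℕ∞) q (Icc 0 T ∩ Ioo (t - ε) (t + ε))}

/-- a linear system with a nonlinear scalar output, on `ℝ × ℝ^k × ℝ^m`, with real analytic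
coefficients -/
structure SO (k m : ℕ) where
  /-- speed of the first coordinate -/
  ω : ℝ
  /-- drift matrix of the x-part -/
  A : Matrix (Fin k) (Fin k) ℝ
  /-- drift matrix of the y-part -/
  C : Matrix (Fin m) (Fin m) ℝ
  /-- drift of the x-part -/
  c : Fin k → ℝ → ℝ
  /-- controlled direction of the x-part -/
  b : Fin k → ℝ → ℝ
  /-- the scalar output is `o(τ)·x` -/
  o : Fin k → ℝ → ℝ
  /-- nonlinear drift of the y-part -/
  H : Fin m → ℝ × ℝ → ℝ
  /-- linear drift of the y-part -/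
  l : Fin m → Fin k → ℝ → ℝ
  /-- controlled direction of the y-part -/
  s : Fin m → ℝ → ℝ
  hc : ∀ i, AnalyticOnNhd ℝ (c i) univ
  hb : ∀ i, AnalyticOnNhd ℝ (b i) univ
  ho : ∀ i, AnalyticOnNhd ℝ (o i) univ
  hH : ∀ i, AnalyticOnNhd ℝ (H i) univ
  hl : ∀ i a, AnalyticOnNhd ℝ (l i a) univ
  hs : ∀ i, AnalyticOnNhd ℝ (s i) univ

/-- the state space -/
abbrev State (k m : ℕ) := ℝ × (Fin k → ℝ) × (Fin m → ℝ)

variable {k m : ℕ}

/-- the drift `f(τ,x,y) = (ω, A x + c(τ), C y + (H_i(τ, o(τ)·x) + l_i(τ)·x)_i)` -/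
noncomputable def SO.f (S : SO k m) (z : State k m) : State k m :=
  (S.ω, fun i => ∑ j, S.A i j * z.2.1 j + S.c i z.1,
    fun i => ∑ j, S.C i j * z.2.2 j + (S.H i (z.1, ∑ a, S.o a z.1 * z.2.1 a)
      + ∑ a, S.l i a z.1 * z.2.1 a))

/-- the controlled field `g(τ,x,y) = (0, b(τ), s(τ))` -/
noncomputable def SO.g (S : SO k m) (z : State k m) : State k m :=
  (0, fun i => S.b i z.1, fun i => S.s i z.1)

theorem analytic_shift {f : ℝ → ℝ} (hf : AnalyticOnNhd ℝ f univ) (τ₀ ω : ℝ) :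
    AnalyticOnNhd ℝ (fun t => f (τ₀ + ω * t)) univ := by
  intro t _
  have h1 : AnalyticAt ℝ (fun t : ℝ => τ₀ + ω * t) t :=
    analyticAt_const.add (analyticAt_const.mul analyticAt_id)
  exact AnalyticAt.fun_comp (hf (τ₀ + ω * t) (mem_univ _)) h1

theorem analytic_shift2 {f : ℝ × ℝ → ℝ} (hf : AnalyticOnNhd ℝ f univ) (τ₀ ω : ℝ) :
    AnalyticOnNhd ℝ (fun p : ℝ × ℝ => f (τ₀ + ω * p.1, p.2)) univ := by
  intro p _
  have h1 : AnalyticAt ℝ (fun p : ℝ × ℝ => (τ₀ + ω * p.1, p.2)) p :=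
    (analyticAt_const.add (analyticAt_const.mul analyticAt_fst)).prod analyticAt_snd
  exact AnalyticAt.fun_comp (g := f) (f := fun p : ℝ × ℝ => (τ₀ + ω * p.1, p.2))
    (hf (τ₀ + ω * p.1, p.2) (mem_univ _)) h1

theorem lip_comp {E F : Type*} [PseudoMetricSpace E] [PseudoMetricSpace F] {π : E → F}
    (hπ : ∀ x y, dist (π x) (π y) ≤ dist x y) {q : ℝ → E} {L : NNReal} {s : Set ℝ}
    (h : LipschitzOnWith L q s) : LipschitzOnWith L (fun t => π (q t)) s :=
  LipschitzOnWith.of_dist_le_mul fun x hx y hy => (hπ _ _).trans (h.dist_le_mul x hx y hy)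

theorem hd_fst {E F : Type*} [NormedAddCommGroup E] [NormedSpace ℝ E] [NormedAddCommGroup F]
    [NormedSpace ℝ F] {q : ℝ → E × F} {d : E × F} {t : ℝ} (h : HasDerivAt q d t) :
    HasDerivAt (fun t => (q t).1) d.1 t :=
  (ContinuousLinearMap.fst ℝ E F).hasFDerivAt.comp_hasDerivAt t h

theorem hd_snd {E F : Type*} [NormedAddCommGroup E] [NormedSpace ℝ E] [NormedAddCommGroup F]
    [NormedSpace ℝ F] {q : ℝ → E × F} {d : E × F} {t : ℝ} (h : HasDerivAt q d t) :
    HasDerivAt (fun t => (q t).2) d.2 t :=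
  (ContinuousLinearMap.snd ℝ E F).hasFDerivAt.comp_hasDerivAt t h

/-- a Lipschitz function with constant derivative a.e. is affine -/
theorem affine_of_deriv {T ω : ℝ} {x : ℝ → ℝ} {K : NNReal} (hx : LipschitzOnWith K x (Icc 0 T))
    (hd : ∀ᵐ t, t ∈ Icc 0 T → HasDerivAt x ω t) {t : ℝ} (ht : t ∈ Icc 0 T) :
    x t = x 0 + ω * t := by
  have h1 : AbsolutelyContinuousOnInterval x 0 t := by
    apply LipschitzOnWith.absolutelyContinuousOnInterval (K := K)
    rw [uIcc_of_le ht.1]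
    exact hx.mono (Icc_subset_Icc_right ht.2)
  have h2 := h1.integral_deriv_eq_sub
  have h3 : ∫ r in (0 : ℝ)..t, deriv x r = ∫ _r in (0 : ℝ)..t, ω := by
    apply intervalIntegral.integral_congr_ae
    filter_upwards [hd] with r hr hrm
    rw [uIoc_of_le ht.1] at hrm
    exact (hr ⟨hrm.1.le, hrm.2.trans ht.2⟩).deriv
  rw [h3, intervalIntegral.integral_const] at h2
  simp only [sub_zero, smul_eq_mul] at h2
  linarith

theorem countable_of_swSet {T : ℝ} {q : ℝ → State k m} {v : ℝ → ℝ}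
    (hv : (SwSet T v).Countable)
    (hq : ∀ α β : ℝ, (∃ h : ℝ → ℝ, ContDiffOn ℝ (⊤ : ℕ∞) h (Ioo α β) ∧
      ∀ᵐ r : ℝ, r ∈ Ioo α β → v r = h r) → ContDiffOn ℝ (⊤ : ℕ∞) q (Ioo α β)) :
    (Switching T q).Countable := by
  have hcount : (SwSet T v ∪ {0, T}).Countable := hv.union (Set.toFinite _).countable
  apply hcount.mono
  rintro t ⟨htT, ht⟩
  by_contra hnot
  rw [mem_union, not_or] at hnot
  obtain ⟨h1, h2⟩ := hnot
  have h0 : t ≠ 0 := fun h => h2 (by rw [h]; exact Or.inl rfl)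
  have h0' : t ≠ T := fun h => h2 (by rw [h]; exact Or.inr rfl)
  have hpos : 0 < t := lt_of_le_of_ne htT.1 (Ne.symm h0)
  have hlt : t < T := lt_of_le_of_ne htT.2 h0'
  have hsm : SmoothNear T v t := by
    by_contra h
    exact h1 ⟨htT, h⟩
  obtain ⟨ε, hε, h, hh, hae⟩ := hsm
  set δ : ℝ := min ε (min t (T - t)) with hδ
  have hδ0 : 0 < δ := lt_min hε (lt_min hpos (by linarith))
  have hδ1 : δ ≤ ε := min_le_left _ _
  have hδ2 : δ ≤ t := (min_le_right _ _).trans (min_le_left _ _)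
  have hδ3 : δ ≤ T - t := (min_le_right _ _).trans (min_le_right _ _)
  apply ht δ hδ0
  have := hq (t - δ) (t + δ) ⟨h, hh.mono (Ioo_subset_Ioo (by linarith) (by linarith)), by
    filter_upwards [hae] with r hr hrm
    exact hr ⟨by linarith [hrm.1], by linarith [hrm.2]⟩ ⟨by linarith [hrm.1], by linarith [hrm.2]⟩⟩
  exact this.mono inter_subset_right

theorem replace (S : SO k m) {T : ℝ} {q : ℝ → State k m} (hT : 0 ≤ T)
    (hq : IsTraj S.f S.g T q) :
    ∃ q' : ℝ → State k m, IsTraj S.f S.g T q' ∧ q' 0 = q 0 ∧ q' T = q T ∧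
      (Switching T q').Countable := by
  obtain ⟨⟨L, hL⟩, u, hum, hub, hd⟩ := hq
  obtain ⟨M, N, hF⟩ := exists_flow S.A
  obtain ⟨M', N', hF'⟩ := exists_flow S.C
  set τ₀ : ℝ := (q 0).1 with hτ₀
  set x0 : Fin k → ℝ := (q 0).2.1 with hx0
  set y0 : Fin m → ℝ := (q 0).2.2 with hy0
  -- the coefficients along the trajectory
  set c : Fin k → ℝ → ℝ := fun i t => S.c i (τ₀ + S.ω * t) with hcdef
  set b : Fin k → ℝ → ℝ := fun i t => S.b i (τ₀ + S.ω * t) with hbdef
  set o : Fin k → ℝ → ℝ := fun i t => S.o i (τ₀ + S.ω * t) with hodef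
  set H : Fin m → ℝ × ℝ → ℝ := fun i p => S.H i (τ₀ + S.ω * p.1, p.2) with hHdef
  set l : Fin m → Fin k → ℝ → ℝ := fun i a t => S.l i a (τ₀ + S.ω * t) with hldef
  set s : Fin m → ℝ → ℝ := fun i t => S.s i (τ₀ + S.ω * t) with hsdef
  have hc : ∀ i, AnalyticOnNhd ℝ (c i) univ := fun i => analytic_shift (S.hc i) τ₀ S.ω
  have hb : ∀ i, AnalyticOnNhd ℝ (b i) univ := fun i => analytic_shift (S.hb i) τ₀ S.ω
  have ho : ∀ i, AnalyticOnNhd ℝ (o i) univ := fun i => analytic_shift (S.ho i) τ₀ S.ω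
  have hH : ∀ i, AnalyticOnNhd ℝ (H i) univ := fun i => analytic_shift2 (S.hH i) τ₀ S.ω
  have hl : ∀ i a, AnalyticOnNhd ℝ (l i a) univ := fun i a => analytic_shift (S.hl i a) τ₀ S.ω
  have hs : ∀ i, AnalyticOnNhd ℝ (s i) univ := fun i => analytic_shift (S.hs i) τ₀ S.ω
  have hcc := fun i => continuous_of_analytic (hc i)
  have hbc := fun i => continuous_of_analytic (hb i)
  have hoc := fun i => continuous_of_analytic (ho i)
  have hlc := fun i a => continuous_of_analytic (hl i a)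
  have hsc := fun i => continuous_of_analytic (hs i)
  -- the given trajectory in terms of its control
  have hd1 : ∀ᵐ t, t ∈ Icc 0 T → HasDerivAt (fun t => (q t).1) S.ω t := by
    filter_upwards [hd] with t ht htT
    have h1 := hd_fst (ht htT)
    have h2 : (S.f (q t) + u t • S.g (q t)).1 = S.ω := by
      simp [SO.f, SO.g]
    rwa [h2] at h1
  have hL1 : LipschitzOnWith L (fun t => (q t).1) (Icc 0 T) :=
    lip_comp (π := fun z : State k m => z.1) (fun x y => le_max_left _ _) hL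
  have hL21 : ∀ i, LipschitzOnWith L (fun t => (q t).2.1 i) (Icc 0 T) := fun i =>
    lip_comp (π := fun z : State k m => z.2.1 i)
      (fun x y => (dist_le_pi_dist x.2.1 y.2.1 i).trans
        ((le_max_left _ _).trans (le_max_right _ _))) hL
  have hL22 : ∀ i, LipschitzOnWith L (fun t => (q t).2.2 i) (Icc 0 T) := fun i =>
    lip_comp (π := fun z : State k m => z.2.2 i)
      (fun x y => (dist_le_pi_dist x.2.2 y.2.2 i).trans
        ((le_max_right _ _).trans (le_max_right _ _))) hL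
  have hτ : ∀ t ∈ Icc 0 T, (q t).1 = τ₀ + S.ω * t := fun t ht => affine_of_deriv hL1 hd1 ht
  have hd2 : ∀ i, ∀ᵐ t, t ∈ Icc 0 T → HasDerivAt (fun t => (q t).2.1 i)
      (∑ j, S.A i j * (q t).2.1 j + (c i t + u t * b i t)) t := by
    intro i
    filter_upwards [hd] with t ht htT
    have h1 := (hasDerivAt_pi.1 (hd_fst (hd_snd (ht htT)))) i
    have h2 : (S.f (q t) + u t • S.g (q t)).2.1 i
        = ∑ j, S.A i j * (q t).2.1 j + (c i t + u t * b i t) := by
      simp only [SO.f, SO.g, Prod.snd_add, Prod.fst_add, Prod.smul_snd, Prod.smul_fst,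
        Pi.add_apply, Pi.smul_apply, smul_eq_mul, hcdef, hbdef, hτ t htT]
      ring
    rwa [h2] at h1
  have hx : ∀ t ∈ Icc 0 T, ∀ i, (q t).2.1 i = vc M N x0 c b u i t := fun t ht i =>
    eq_vc hF (x := fun i t => (q t).2.1 i) (fun i => ⟨L, hL21 i⟩) hd2 ht i
  have hd3 : ∀ i, ∀ᵐ t, t ∈ Icc 0 T → HasDerivAt (fun t => (q t).2.2 i)
      (∑ j, S.C i j * (q t).2.2 j + (PE H o l (vc M N x0 c b u) i t
        + u t * s i t)) t := by
    intro i
    filter_upwards [hd] with t ht htT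
    have h1 := (hasDerivAt_pi.1 (hd_snd (hd_snd (ht htT)))) i
    have h2 : (S.f (q t) + u t • S.g (q t)).2.2 i
        = ∑ j, S.C i j * (q t).2.2 j + (PE H o l (vc M N x0 c b u) i t
        + u t * s i t) := by
      simp only [SO.f, SO.g, Prod.snd_add, Prod.smul_snd, PE,
        Pi.add_apply, Pi.smul_apply, smul_eq_mul, hodef, hHdef, hldef, hsdef, hτ t htT,
        hx t htT]
      ring
    rwa [h2] at h1
  have hy : ∀ t ∈ Icc 0 T, ∀ i, (q t).2.2 i = vc M' N' y0 (PE H o l (vc M N x0 c b u))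
      s u i t := fun t ht i =>
    eq_vc hF' (x := fun i t => (q t).2.2 i) (fun i => ⟨L, hL22 i⟩) hd3 ht i
  -- the new control
  obtain ⟨v, hvm, hvb, hvS, hvx, hvy⟩ := transferE hF hF' hc hb ho hH hl hs x0 y0 T hum hub
  set X : Fin k → ℝ → ℝ := vc M N x0 c b v with hX
  set Y : Fin m → ℝ → ℝ := vc M' N' y0 (PE H o l X) s v with hY
  have hXc : ∀ i, Continuous (X i) := fun i => vc_cont hF x0 hcc hbc hvm hvb i
  have hPc := PE_cont (X := X) hH hoc hlc hXc
  have hRc := hsc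
  refine ⟨fun t => (τ₀ + S.ω * t, fun i => X i t, fun i => Y i t), ⟨?_, v, hvm, hvb, ?_⟩, ?_, ?_,
    ?_⟩
  · -- Lipschitz
    choose KX hKX using fun i => vc_lipschitz hF x0 hcc hbc hvm hvb i T
    choose KY hKY using fun i => vc_lipschitz hF' y0 hPc hRc hvm hvb i T
    set K1 : NNReal := ⟨|S.ω|, abs_nonneg _⟩ with hK1
    refine ⟨K1 + (∑ i, KX i + ∑ i, KY i), ?_⟩
    apply LipschitzOnWith.of_dist_le_mul
    intro x hx y hy
    have hnn : (0 : ℝ) ≤ dist x y := dist_nonneg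
    have hsX : ∀ i, (KX i : ℝ) ≤ ∑ i, (KX i : ℝ) := fun i =>
      Finset.single_le_sum (f := fun i => (KX i : ℝ)) (fun i _ => (KX i).2) (Finset.mem_univ i)
    have hsY : ∀ i, (KY i : ℝ) ≤ ∑ i, (KY i : ℝ) := fun i =>
      Finset.single_le_sum (f := fun i => (KY i : ℝ)) (fun i _ => (KY i).2) (Finset.mem_univ i)
    have hX0 : 0 ≤ ∑ i, (KX i : ℝ) := Finset.sum_nonneg fun i _ => (KX i).2
    have hY0 : 0 ≤ ∑ i, (KY i : ℝ) := Finset.sum_nonneg fun i _ => (KY i).2
    have hcoe : ((K1 + (∑ i, KX i + ∑ i, KY i) : NNReal) : ℝ)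
        = |S.ω| + (∑ i, (KX i : ℝ) + ∑ i, (KY i : ℝ)) := by
      push_cast
      rfl
    rw [hcoe]
    have hω0 : 0 ≤ |S.ω| := abs_nonneg _
    have htot : 0 ≤ (|S.ω| + (∑ i, (KX i : ℝ) + ∑ i, (KY i : ℝ))) * dist x y := by positivity
    apply max_le
    · show dist (τ₀ + S.ω * x) (τ₀ + S.ω * y) ≤ _
      rw [Real.dist_eq, show τ₀ + S.ω * x - (τ₀ + S.ω * y) = S.ω * (x - y) by ring, abs_mul,
        ← Real.dist_eq]
      apply mul_le_mul_of_nonneg_right _ hnn
      linarith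
    · apply max_le
      · show dist (fun i => X i x) (fun i => X i y) ≤ _
        rw [dist_pi_le_iff htot]
        intro i
        apply ((hKX i).dist_le_mul x hx y hy).trans
        apply mul_le_mul_of_nonneg_right _ hnn
        linarith [hsX i]
      · show dist (fun i => Y i x) (fun i => Y i y) ≤ _
        rw [dist_pi_le_iff htot]
        intro i
        apply ((hKY i).dist_le_mul x hx y hy).trans
        apply mul_le_mul_of_nonneg_right _ hnn
        linarith [hsY i]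
  · -- the equation
    have h1 : ∀ᵐ t, ∀ i, HasDerivAt (X i) (∑ j, S.A i j * X j t + (c i t + v t * b i t)) t := by
      rw [ae_all_iff]
      exact fun i => vc_ae hF x0 hcc hbc hvm hvb i
    have h2 : ∀ᵐ t, ∀ i, HasDerivAt (Y i)
        (∑ j, S.C i j * Y j t + (PE H o l X i t + v t * s i t)) t := by
      rw [ae_all_iff]
      exact fun i => vc_ae hF' y0 hPc hRc hvm hvb i
    filter_upwards [h1, h2] with t ht1 ht2 _
    have h3 : HasDerivAt (fun t : ℝ => τ₀ + S.ω * t) S.ω t := by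
      have := ((hasDerivAt_id t).const_mul S.ω).const_add τ₀
      simpa using this
    have h4 := h3.prodMk ((hasDerivAt_pi.2 ht1).prodMk (hasDerivAt_pi.2 ht2))
    have h5 : S.f (τ₀ + S.ω * t, fun i => X i t, fun i => Y i t)
        + v t • S.g (τ₀ + S.ω * t, fun i => X i t, fun i => Y i t)
        = (S.ω, (fun i => ∑ j, S.A i j * X j t + (c i t + v t * b i t)),
          fun i => ∑ j, S.C i j * Y j t + (PE H o l X i t + v t * s i t)) := by
      refine Prod.ext ?_ (Prod.ext ?_ ?_)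
      · simp [SO.f, SO.g]
      · ext i
        simp only [SO.f, SO.g, Prod.snd_add, Prod.fst_add, Prod.smul_snd, Prod.smul_fst,
          Pi.add_apply, Pi.smul_apply, smul_eq_mul, hcdef, hbdef]
        ring
      · ext i
        simp only [SO.f, SO.g, Prod.snd_add, Prod.smul_snd, PE,
          Pi.add_apply, Pi.smul_apply, smul_eq_mul, hodef, hHdef, hldef, hsdef]
        ring
    show HasDerivAt _ (S.f (τ₀ + S.ω * t, fun i => X i t, fun i => Y i t)
        + v t • S.g (τ₀ + S.ω * t, fun i => X i t, fun i => Y i t)) t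
    rw [h5]
    exact h4
  · refine Prod.ext ?_ (Prod.ext ?_ ?_)
    · simp [hτ₀]
    · ext i
      exact vc_zero hF x0 c b v i
    · ext i
      exact vc_zero hF' y0 (PE H o l X) s v i
  · refine Prod.ext ?_ (Prod.ext ?_ ?_)
    · exact (hτ T ⟨hT, le_rfl⟩).symm
    · ext i
      rw [hx T ⟨hT, le_rfl⟩ i]
      exact hvx i
    · ext i
      rw [hy T ⟨hT, le_rfl⟩ i]
      exact hvy i
  · apply countable_of_swSet hvS
    rintro α β ⟨h, hh, hae⟩
    have hcs := fun i => (contDiff_of_analytic (hc i) (⊤ : ℕ∞)).contDiffOn (s := Ioo α β)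
    have hbs := fun i => (contDiff_of_analytic (hb i) (⊤ : ℕ∞)).contDiffOn (s := Ioo α β)
    have hXs : ∀ i, ContDiffOn ℝ (⊤ : ℕ∞) (X i) (Ioo α β) := fun i =>
      vc_smooth hF x0 hcc hbc hvm hvb i hcs hbs hh hae
    have hPs : ∀ i, ContDiffOn ℝ (⊤ : ℕ∞) (PE H o l X i) (Ioo α β) := fun i =>
      PE_smooth hH (fun a => (contDiff_of_analytic (ho a) _).contDiffOn)
        (fun i a => (contDiff_of_analytic (hl i a) _).contDiffOn) hXs i
    have hRs : ∀ i, ContDiffOn ℝ (⊤ : ℕ∞) (s i) (Ioo α β) := fun i =>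
      (contDiff_of_analytic (hs i) _).contDiffOn
    have hYs : ∀ i, ContDiffOn ℝ (⊤ : ℕ∞) (Y i) (Ioo α β) := fun i =>
      vc_smooth hF' y0 hPc hRc hvm hvb i hPs hRs hh hae
    apply ContDiffOn.prodMk
    · exact (contDiff_const.add (contDiff_const.mul contDiff_id)).contDiffOn
    · exact (contDiffOn_pi.2 hXs).prodMk (contDiffOn_pi.2 hYs)

/-- **Q1 for linear systems with a nonlinear scalar output.** -/
theorem result (S : SO k m) :
    (∀ (T : ℝ) (q : ℝ → State k m), 0 ≤ T → IsTraj S.f S.g T q →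
      ∃ q' : ℝ → State k m, IsTraj S.f S.g T q' ∧ q' 0 = q 0 ∧ q' T = q T ∧
        (Switching T q').Countable) ∧
    ∀ q₀ q₁ : State k m, (∃ T q, TimeOptimal S.f S.g q₀ q₁ T q) →
      ∃ T q, TimeOptimal S.f S.g q₀ q₁ T q ∧ (Switching T q).Countable := by
  constructor
  · intro T q hT hq
    exact replace S hT hq
  · rintro q₀ q₁ ⟨T, q, hT, hq, h0, h1, hopt⟩
    obtain ⟨q', hq', h0', h1', hcount⟩ := replace S hT hq
    exact ⟨T, q', ⟨hT, hq', by rw [h0', h0], by rw [h1', h1], hopt⟩, hcount⟩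

end Pool.Agent.Results.MP_28b8de_an.ScalarOutput
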